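import Pool.Agent.K1H58.KR.Pos
import Pool.Agent.K1H58.KR.RunA
import Pool.Agent.K1H58.KR.RunB
import Pool.Agent.K1H58.KR.RunP

/-!
# King and rook against king on a quarter-infinite board (MP_b88367_co)

From WK a1, WR b2, BK c3, White to move, White forces checkmate on the quarter-infinite board, and
exactly 39 moves are needed. On the board with `m` files and `n` ranks (`⊤` for no edge) with exits
to the north and to the east White can force checkmate iff `9 ≤ m`, `11 ≤ n` or `11 ≤ m`, `9 ≤ n`,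
and 39 moves are needed there as well. This holds whether or not the square on which the Black king
leaves the board has to be free from attack (`careful`).

White wins: the exact game on the `9 × 11` and on the `11 × 9` board is solved by tables (six
coordinates, one bit for each position), evaluated by the kernel. Black survives (for 38 moves, or
for ever): an abstraction of the game in which a frame moves with the Black king, the White pieces
far away are clamped and White's possibilities are enlarged is solved in the same way.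
-/

set_option autoImplicit false

namespace Pool.Agent.Results.MP_b88367_co.ThirtyNineMoves

open K1H58.KR

theorem not_in_38 : ¬ MateIn ⟨⊤, ⊤, true⟩ 38 start :=
  not_mateIn_of_run ⟨11, 11, true, true⟩ ⟨by decide, by decide⟩ (by decide) (by decide) 38 runA

theorem not_10_10 : ¬ Wins ⟨((10 : ℕ) : ℕ∞), ((10 : ℕ) : ℕ∞), true⟩ start :=
  not_wins_of_run ⟨10, 10, false, false⟩ ⟨by decide, by decide⟩ (by decide) (by decide) 42
    runB runB'

theorem not_8_top : ¬ Wins ⟨((8 : ℕ) : ℕ∞), ⊤, true⟩ start :=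
  not_wins_of_run ⟨8, 5, false, true⟩ ⟨by decide, by decide⟩ (by decide) (by decide) 28
    runC runC'

theorem not_top_8 : ¬ Wins ⟨⊤, ((8 : ℕ) : ℕ∞), true⟩ start :=
  not_wins_of_run ⟨5, 8, true, false⟩ ⟨by decide, by decide⟩ (by decide) (by decide) 28
    runD runD'

theorem in_39_9_11 : MateIn ⟨((9 : ℕ) : ℕ∞), ((11 : ℕ) : ℕ∞), false⟩ 39 start :=
  pos_mateIn (m := 9) (n := 11) 39 startCo
    ⟨by decide, by decide, by decide, by decide, by decide, by decide⟩ runP

theorem in_39_11_9 : MateIn ⟨((11 : ℕ) : ℕ∞), ((9 : ℕ) : ℕ∞), false⟩ 39 start :=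
  pos_mateIn (m := 11) (n := 9) 39 startCo
    ⟨by decide, by decide, by decide, by decide, by decide, by decide⟩ runQ

theorem le_of_not {m : ℕ∞} {k : ℕ} (h : ¬ ((k + 1 : ℕ) : ℕ∞) ≤ m) : m ≤ (k : ℕ∞) := by
  induction m using ENat.recTopCoe with
  | top => exact absurd le_top h
  | coe a => rw [Nat.cast_le] at h ⊢; omega

/-- the boards on which White can force checkmate -/
theorem big_of_wins {m n : ℕ∞} {careful : Bool} (h : Wins ⟨m, n, careful⟩ start) :
    (9 ≤ m ∧ 11 ≤ n) ∨ (11 ≤ m ∧ 9 ≤ n) := by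
  by_contra hc
  have h8 : ¬ m ≤ ((8 : ℕ) : ℕ∞) := fun e => not_8_top (h.board e le_top fun _ => rfl)
  have h8' : ¬ n ≤ ((8 : ℕ) : ℕ∞) := fun e => not_top_8 (h.board le_top e fun _ => rfl)
  have h9 : (9 : ℕ∞) ≤ m := by
    by_contra e; exact h8 (le_of_not (k := 8) e)
  have h9' : (9 : ℕ∞) ≤ n := by
    by_contra e; exact h8' (le_of_not (k := 8) e)
  have h10 : m ≤ ((10 : ℕ) : ℕ∞) := le_of_not (k := 10) fun e => hc (Or.inr ⟨e, h9'⟩)
  have h10' : n ≤ ((10 : ℕ) : ℕ∞) := le_of_not (k := 10) fun e => hc (Or.inl ⟨h9, e⟩)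
  exact not_10_10 (h.board h10 h10' fun _ => rfl)

theorem in_39 {m n : ℕ∞} (careful : Bool) (h : (9 ≤ m ∧ 11 ≤ n) ∨ (11 ≤ m ∧ 9 ≤ n)) :
    MateIn ⟨m, n, careful⟩ 39 start := by
  rcases h with ⟨h1, h2⟩ | ⟨h1, h2⟩
  · exact in_39_9_11.board h1 h2 (fun e => absurd e Bool.false_ne_true)
  · exact in_39_11_9.board h1 h2 (fun e => absurd e Bool.false_ne_true)

theorem ge_39 {m n : ℕ∞} {careful : Bool} {N : ℕ} (h : MateIn ⟨m, n, careful⟩ N start) :
    39 ≤ N := by
  by_contra hN
  exact not_in_38 ((h.board (B' := ⟨⊤, ⊤, true⟩) le_top le_top fun _ => rfl).mono (by omega))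

/-- **King and rook against king.** White king a1, rook b2, Black king c3, White to move.
On the quarter-infinite board White can force checkmate within `N` moves iff `39 ≤ N`. On the board
with `m ≥ 3` files and `n ≥ 3` ranks, exits to the north and to the east (on any square beyond the
edge, or only on those not attacked), White can force checkmate iff `9 ≤ m` and `11 ≤ n`, or
`11 ≤ m` and `9 ≤ n`, and then, too, `39` moves are needed and enough. -/
theorem result (careful : Bool) :
    (∀ N : ℕ, MateIn ⟨⊤, ⊤, careful⟩ N start ↔ 39 ≤ N) ∧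
    ∀ m n : ℕ∞, 3 ≤ m → 3 ≤ n →
      (Wins ⟨m, n, careful⟩ start ↔ (9 ≤ m ∧ 11 ≤ n) ∨ (11 ≤ m ∧ 9 ≤ n)) ∧
      ∀ N : ℕ, MateIn ⟨m, n, careful⟩ N start ↔
        39 ≤ N ∧ ((9 ≤ m ∧ 11 ≤ n) ∨ (11 ≤ m ∧ 9 ≤ n)) := by
  refine ⟨fun N => ⟨ge_39, fun h => (in_39 careful (Or.inl ⟨le_top, le_top⟩)).mono h⟩,
    fun m n _ _ => ⟨⟨big_of_wins, fun h => (in_39 careful h).wins⟩, fun N => ⟨fun h => ⟨ge_39 h,
      big_of_wins h.wins⟩, fun h => (in_39 careful h.2).mono h.1⟩⟩⟩

end Pool.Agent.Results.MP_b88367_co.ThirtyNineMoves
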